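import Pool.Agent.Q273.PD.Sharp
import Pool.Agent.Q273.AD.Fin
import Pool.Agent.Q273.MV.P9

/-!
# Hausdorff dimensions of targets in `(K ⊗ ℝ) ^ n` with good approximations of given loss
-/

set_option autoImplicit false
set_option linter.unusedSectionVars false

namespace Q273.PD

open MeasureTheory NumberField NumberField.mixedEmbedding NumberField.InfinitePlace
open IsDedekindDomain Finset Pool.Agent.W232.VA Pool.Agent.H691R3 Height
open LinearAlgebra.Projectivization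
open Q273.MV (prox Gen aff mulHeight_rep finite_low log_mulHeight_nonneg
  infinite_primes gen_ae)
open Q273.AD
open scoped NNReal ENNReal

variable {K : Type} [Field K] [NumberField K] {n r : ℕ}

/-- the upper law at `ξ` for one arrangement, in the range of large proximity -/
def LawX (ξ : Fin n → mixedSpace K) (S : Finset (HeightOneSpectrum (𝓞 K)))
    (a : Fin r → Fin (n + 1) → K) : Prop :=
  ∀ ε : ℝ, 0 < ε → ∃ C : ℝ, ∀ P : ℙ K (Fin (n + 1) → K), (∀ i, lin (a i) P.rep ≠ 0) →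
    ((n : ℝ) + 1 / 2 + ε) * Real.log P.mulHeight ≤ n * prox ξ (aff P) →
    n * prox ξ (aff P) + (hW a P.rep - N1 S a P.rep) ≤
      ((n : ℝ) + 1 + ε) * Real.log P.mulHeight + C

lemma prA_empty (p : (Fin n → mixedSpace K) × FinAd K n) (y : Fin n → K) :
    prA ∅ p y = prox p.1 y := by
  unfold prA
  rw [Finset.sum_empty, add_zero]

theorem scaleT (hn : 1 ≤ n) {ξ : Fin n → mixedSpace K} (hξ : Gen ξ)
    (S : Finset (HeightOneSpectrum (𝓞 K))) (a : Fin r → Fin (n + 1) → K)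
    (ha : ∀ i, a i ≠ 0) (hd : ∀ i l, i ≠ l → ∀ c : K, a i ≠ c • a l)
    (hlaw : LawX ξ S a) (δ : Fin r → ℝ) (hδ : ∀ i, 0 ≤ δ i) (hΔ : ∑ i, δ i < 1 / 2)
    (ε : ℝ) (hε : 0 < ε) :
    ∃ t1 : ℝ, ∀ t : ℝ, t1 ≤ t → ∃ P : ℙ K (Fin (n + 1) → K),
      (∀ i, lin (a i) P.rep ≠ 0) ∧ P.rep 0 ≠ 0 ∧
      |(Module.finrank ℚ K : ℝ) * t - Real.log P.mulHeight| ≤ ε * Real.log P.mulHeight ∧
      (∀ w : InfinitePlace K, |n * ((w.mult : ℝ) * pw ξ w (aff P)) -
        ((w.mult : ℝ) * (((n : ℝ) + 1 - ∑ i, δ i) / (Module.finrank ℚ K : ℝ))) *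
          Real.log P.mulHeight| ≤ ε * Real.log P.mulHeight) ∧
      |(hW a P.rep - N1 S a P.rep) - (∑ i, δ i) * Real.log P.mulHeight| ≤
        ε * Real.log P.mulHeight := by
  classical
  obtain ⟨s, hs, b, hb⟩ := exists_scale a
  have hb0 : ∀ i, cz (b i) ≠ 0 := fun i => by
    rw [hb i]; exact smul_ne_zero hs (ha i)
  have hbd : ∀ i l, i ≠ l → ∀ c : K, cz (b i) ≠ c • cz (b l) := by
    intro i l hil c h
    rw [hb i, hb l, smul_comm] at h
    exact hd i l hil c (smul_right_injective _ hs h)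
  have htr : ∀ P : ℙ K (Fin (n + 1) → K), N1 S (fun i => cz (b i)) P.rep = N1 S a P.rep ∧
      hW (fun i => cz (b i)) P.rep = hW a P.rep := fun P =>
    transfer S (a := a) (b := fun i => cz (b i)) (t := 1) hs one_ne_zero hb (one_smul K _).symm
  have hlin : ∀ (i : Fin r) (P : ℙ K (Fin (n + 1) → K)),
      lin (cz (b i)) P.rep ≠ 0 ↔ lin (a i) P.rep ≠ 0 := by
    intro i P
    rw [hb i, Pool.Agent.W232.VA.lin_smul_left]
    constructor
    · intro h h0
      exact h (by rw [h0, mul_zero])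
    · intro h
      exact mul_ne_zero hs h
  set p : (Fin n → mixedSpace K) × FinAd K n := (ξ, fun _ _ => 0) with hp
  have hη : GenV ∅ p.2 := fun v hv => absurd hv (Finset.notMem_empty v)
  have hlaw' : ∀ ε : ℝ, 0 < ε → ∃ C : ℝ,
      ∀ Q : ℙ K (Fin (n + 1) → K), (∀ i, lin (cz (b i)) Q.rep ≠ 0) → Q.rep 0 ≠ 0 →
        ((n : ℝ) + 1 - 1 / 2 + ε) * Real.log Q.mulHeight ≤ n * prA ∅ p (aff Q) →
        n * prA ∅ p (aff Q) + (hW (fun i => cz (b i)) Q.rep - N1 S (fun i => cz (b i)) Q.rep) ≤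
          ((n : ℝ) + 1 + ε) * Real.log Q.mulHeight + C := by
    intro ε hε
    obtain ⟨C, hC⟩ := hlaw ε hε
    refine ⟨C, fun P hP _ hle => ?_⟩
    rw [(htr P).1, (htr P).2, prA_empty]
    rw [prA_empty] at hle
    refine hC P (fun i => (hlin i P).1 (hP i)) ?_
    refine le_trans (le_of_eq ?_) hle
    ring
  obtain ⟨Pf, hPf⟩ : ∃ P : Fin r → HeightOneSpectrum (𝓞 K), Function.Injective P := by
    have := infinite_primes K
    exact ⟨fun i => Infinite.natEmbedding _ i.1, fun i j h =>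
      Fin.ext ((Infinite.natEmbedding _).injective h)⟩
  have hd0 : (0 : ℝ) < (Module.finrank ℚ K : ℝ) := by
    exact_mod_cast Module.finrank_pos
  have hΔ0 : 0 ≤ ∑ i, δ i := Finset.sum_nonneg fun i _ => hδ i
  have hn1 : (1 : ℝ) ≤ n := by exact_mod_cast hn
  obtain ⟨t1, ht1⟩ := sharpT Pool.Agent.Q153.AD.pig3
    Pool.Agent.Q299.AD.zero Pool.Agent.Q299.AD.locv Pool.Agent.Q299.AD.arch3 Q182.AD.fapx
    Q182.AD.hypv Q182.AD.hypw hn (p := p) hξ ∅ hη b hb0 _ _ (κ0 := 1 / 2) (by norm_num)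
    (finite_low (S := S) (fun i => cz (b i)) hb0) hlaw' Pf
    (locAt_arr S b hb0 hbd Pf hPf ∅ (fun i => Finset.notMem_empty _))
    (fun w => (w.mult : ℝ) * (((n : ℝ) + 1 - ∑ i, δ i) / (Module.finrank ℚ K : ℝ)))
    (fun _ => 0) δ
    (fun w => mul_nonneg (Nat.cast_nonneg _) (div_nonneg (by linarith) hd0.le)) (fun _ => le_rfl)
    hδ hΔ (by
      rw [← Finset.sum_mul, sum_mult_real, Finset.sum_empty, mul_div_cancel₀ _ hd0.ne']
      ring) ε hε
  refine ⟨t1, fun t ht => ?_⟩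
  obtain ⟨P, h1, h2, h3, h4, _, h5, _⟩ := ht1 t ht
  simp only [(htr P).1, (htr P).2] at h5
  exact ⟨P, fun i => (hlin i P).1 (h1 i), h2, h3, h4, h5⟩

open scoped Classical in
/-- from the local proximities to the distance -/
lemma dist_of_pw {ξ : Fin n → mixedSpace K} {y : Fin n → K} {β : ℝ} (hβ : 0 < β)
    (h : ∀ w : InfinitePlace K, β ≤ pw ξ w y) (hn : 1 ≤ n) :
    ‖ξ - fun j => mixedEmbedding K (y j)‖ ≤ Real.exp (-β) := by
  haveI : Nonempty (Fin n) := ⟨⟨0, hn⟩⟩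
  rw [pi_norm_le_iff_of_nonneg (Real.exp_pos _).le]
  intro j
  rw [Pi.sub_apply, norm_eq_sup'_normAtPlace]
  refine Finset.sup'_le _ _ fun w _ => ?_
  have h1 := h w
  unfold pw at h1
  set M : ℝ := ⨆ j, normAtPlace w (ξ j - mixedEmbedding K (y j)) with hM
  have hM0 : 0 ≤ M := Real.iSup_nonneg fun j => normAtPlace_nonneg _ _
  have h2 : Real.exp β ≤ max 1 M⁻¹ := by
    rw [← Real.le_log_iff_exp_le (lt_of_lt_of_le one_pos (le_max_left _ _))]
    exact h1
  have h3 : 1 < Real.exp β := Real.one_lt_exp_iff.2 hβ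
  have h4 : Real.exp β ≤ M⁻¹ := by
    rcases le_max_iff.1 h2 with h5 | h5
    · exact absurd h5 (not_le.2 h3)
    · exact h5
  have h5 : normAtPlace w (ξ j - mixedEmbedding K (y j)) ≤ M :=
    le_ciSup (f := fun j => normAtPlace w (ξ j - mixedEmbedding K (y j)))
      (Set.finite_range _).bddAbove j
  refine h5.trans ?_
  have hMpos : 0 < M := by
    rcases hM0.eq_or_lt with h6 | h6
    · rw [← h6, inv_zero] at h4
      linarith [Real.exp_pos β]
    · exact h6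
  rw [Real.exp_neg, le_inv_comm₀ hMpos (Real.exp_pos _)]
  exact h4

end Q273.PD
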