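import Pool.Agent.Q273.PD.Dim
import Pool.Agent.Q61.MV.Ubi
import Pool.Agent.Q198.MV.Cantor

/-!
# Hausdorff dimensions of targets in `(K ⊗ ℝ) ^ n` with good approximations of given loss, second part
-/

set_option autoImplicit false
set_option linter.unusedSectionVars false

namespace Q273.PD

open MeasureTheory NumberField NumberField.mixedEmbedding NumberField.InfinitePlace
open IsDedekindDomain Finset Pool.Agent.W232.VA Pool.Agent.H691R3 Height
open LinearAlgebra.Projectivization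
open Q273.MV (prox Gen aff mulHeight_rep finite_low log_mulHeight_nonneg
  infinite_primes gen_ae)
open Q273.AD
open scoped NNReal ENNReal

variable {K : Type} [Field K] [NumberField K] {n r : ℕ}

open scoped Classical in
/-- targets with approximations of order `τ` by points whose loss is at least `Δ` times the height -/
def WN (S : Finset (HeightOneSpectrum (𝓞 K))) (a : Fin r → Fin (n + 1) → K) (τ Δ : ℝ) :
    Set (Fin n → mixedSpace K) :=
  {ξ | ∀ ε : ℝ, 0 < ε → ∀ B : ℝ, ∃ P : ℙ K (Fin (n + 1) → K), P.rep 0 ≠ 0 ∧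
    (∀ i, lin (a i) P.rep ≠ 0) ∧ B ≤ Real.log P.mulHeight ∧
    ‖ξ - fun j => mixedEmbedding K (aff P j)‖ ≤ Real.exp (-((τ - ε) * Real.log P.mulHeight)) ∧
    (Δ - ε) * Real.log P.mulHeight ≤ hW a P.rep - N1 S a P.rep}

open scoped Classical in
theorem dimN_up (S : Finset (HeightOneSpectrum (𝓞 K))) (a : Fin r → Fin (n + 1) → K)
    (ha : ∀ i, a i ≠ 0) {τ Δ : ℝ} (hτ : 0 < τ) (hΔ0 : 0 ≤ Δ) (hΔ : Δ ≤ 1 / 2) :
    dimH (WN S a τ Δ) ≤ ENNReal.ofReal (((n : ℝ) + 1 - Δ) / τ) := by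
  have hn0 : (0 : ℝ) ≤ n := Nat.cast_nonneg n
  have one : ∀ ε : ℝ, 0 < ε → ε < τ →
      dimH (WN S a τ Δ) ≤ ENNReal.ofReal (((n : ℝ) + 1 - max 0 (Δ - ε)) / (τ - ε)) := by
    intro ε hε hετ
    set κ : ℝ := max 0 (Δ - ε) with hκd
    have hκ0 : 0 ≤ κ := le_max_left _ _
    have hκ2 : κ ≤ 1 / 2 := max_le (by norm_num) (by linarith)
    obtain ⟨E, hE1, hE2⟩ := Q273.Apx.approx (Y := Fin n → mixedSpace K)
      {P : ℙ K (Fin (n + 1) → K) | (∀ l, lin (a l) P.rep ≠ 0) ∧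
        N1 S a P.rep ≤ hW a P.rep - κ * Real.log P.mulHeight + 0}
      (fun P => P.mulHeight) (fun P j => mixedEmbedding K (aff P j)) (s := (n : ℝ) + 1 - κ)
      (τ := τ - ε) (by linarith) (by linarith) (fun δ hδ => by
        obtain ⟨M, hM⟩ := main2 a ha S κ 0 δ hκ0 hκ2 hδ
        refine ⟨M, fun X hX => ?_⟩
        have hset : {P : ℙ K (Fin (n + 1) → K) | P ∈ {P : ℙ K (Fin (n + 1) → K) |
            (∀ l, lin (a l) P.rep ≠ 0) ∧
            N1 S a P.rep ≤ hW a P.rep - κ * Real.log P.mulHeight + 0} ∧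
            P.mulHeight ≤ X} = Exc S a κ 0 X := by
          ext P
          constructor
          · rintro ⟨⟨h1, h2⟩, h3⟩
            exact ⟨h1, h3, h2⟩
          · rintro ⟨h1, h3, h2⟩
            exact ⟨⟨h1, h2⟩, h3⟩
        rw [hset]
        exact hM X hX)
    refine le_trans (dimH_mono fun ξ hξ => ?_) hE1
    by_contra hcon
    have hfin := hE2 ξ hcon 1
    obtain ⟨B, hB⟩ := (hfin.image (fun P => Real.log P.mulHeight)).bddAbove
    obtain ⟨P, hP0, hP1, hP2, hP3, hP4⟩ := hξ ε hε (B + 1)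
    have hpos : 0 ≤ Real.log P.mulHeight := log_mulHeight_nonneg P
    have hH1 : 1 ≤ P.mulHeight := by rw [mulHeight_rep]; exact one_le_mulHeight P.rep
    have hmem : Real.log P.mulHeight ∈ (fun P : ℙ K (Fin (n + 1) → K) => Real.log P.mulHeight) ''
        {t | t ∈ {P : ℙ K (Fin (n + 1) → K) | (∀ l, lin (a l) P.rep ≠ 0) ∧
          N1 S a P.rep ≤ hW a P.rep - κ * Real.log P.mulHeight + 0} ∧
        dist ξ (fun j => mixedEmbedding K (aff t j)) ≤ 1 * (t.mulHeight) ^ (-(τ - ε))} := by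
      refine ⟨P, ⟨⟨hP1, ?_⟩, ?_⟩, rfl⟩
      · rcases le_total 0 (Δ - ε) with h | h
        · rw [hκd, max_eq_right h]
          linarith
        · rw [hκd, max_eq_left h]
          have := Q273.MV.loss_nonneg S ha P.rep_nonzero hP1
          linarith
      · rw [one_mul, dist_eq_norm, Real.rpow_def_of_pos (lt_of_lt_of_le one_pos hH1)]
        refine hP3.trans (le_of_eq ?_)
        congr 1
        ring
    have := hB hmem
    linarith
  have hcont : Filter.Tendsto
      (fun e : ℝ => ENNReal.ofReal (((n : ℝ) + 1 - max 0 (Δ - e)) / (τ - e)))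
      (nhdsWithin 0 (Set.Ioi 0)) (nhds (ENNReal.ofReal (((n : ℝ) + 1 - Δ) / τ))) := by
    apply ENNReal.tendsto_ofReal
    have h1 : ContinuousAt (fun e : ℝ => ((n : ℝ) + 1 - max 0 (Δ - e)) / (τ - e)) 0 := by
      apply ContinuousAt.div
      · exact continuousAt_const.sub (continuousAt_const.max (continuousAt_const.sub continuousAt_id))
      · exact continuousAt_const.sub continuousAt_id
      · simpa using hτ.ne'
    have h2 := h1.tendsto
    simp only [sub_zero, max_eq_right hΔ0] at h2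
    exact h2.mono_left nhdsWithin_le_nhds
  refine ge_of_tendsto hcont ?_
  filter_upwards [Ioo_mem_nhdsGT hτ] with e he
  exact one e he.1 he.2

lemma finrank_mixed : (Module.finrank ℝ (Fin n → mixedSpace K) : ℝ) =
    n * (Module.finrank ℚ K : ℝ) := by
  rw [Module.finrank_pi_fintype, Finset.sum_const, Finset.card_univ, Fintype.card_fin,
    mixedEmbedding.finrank K]
  simp

open scoped Classical in
/-- at almost every `ξ`, at every large scale, there are points with a given loss near `ξ` -/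
theorem cover_ae (hn : 1 ≤ n) (S : Finset (HeightOneSpectrum (𝓞 K)))
    (a : Fin r → Fin (n + 1) → K) (ha : ∀ i, a i ≠ 0)
    (hd : ∀ i l, i ≠ l → ∀ c : K, a i ≠ c • a l) {Δ : ℝ} (hΔ0 : 0 ≤ Δ) (hΔ : Δ < 1 / 2)
    (hr : Δ = 0 ∨ 0 < r) {β e : ℝ} (hβ : 0 < β) (hβ2 : n * β < (n : ℝ) + 1 - Δ) (he : 0 < e) :
    ∀ᵐ ξ : Fin n → mixedSpace K, ∃ t1 : ℝ, ∀ t : ℝ, t1 ≤ t → ∃ P : ℙ K (Fin (n + 1) → K),
      P.rep 0 ≠ 0 ∧ (∀ i, lin (a i) P.rep ≠ 0) ∧
      |(Module.finrank ℚ K : ℝ) * t - Real.log P.mulHeight| ≤ e * Real.log P.mulHeight ∧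
      (Δ - e) * Real.log P.mulHeight ≤ hW a P.rep - N1 S a P.rep ∧
      ‖ξ - fun j => mixedEmbedding K (aff P j)‖ ≤ Real.exp (-(β * t)) := by
  have hn1 : (1 : ℝ) ≤ n := by exact_mod_cast hn
  set d : ℝ := (Module.finrank ℚ K : ℝ) with hdd
  have hd1 : (1 : ℝ) ≤ d := by
    have : 0 < Module.finrank ℚ K := Module.finrank_pos
    rw [hdd]
    exact_mod_cast this
  filter_upwards [gen_ae (K := K) (n := n), Q273.MV.law (K := K) (n := n) hn] with ξ hgen hlaw
  have hL : LawX ξ S a := fun ε hε => hlaw r a ha S ε hε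
  -- the distribution
  obtain ⟨δ, hδ0, hδs⟩ : ∃ δ : Fin r → ℝ, (∀ i, 0 ≤ δ i) ∧ ∑ i, δ i = Δ := by
    rcases hr with h | h
    · exact ⟨fun _ => 0, fun _ => le_rfl, by rw [h, Finset.sum_const_zero]⟩
    · refine ⟨Pi.single ⟨0, h⟩ Δ, fun i => ?_, ?_⟩
      · by_cases hi : i = ⟨0, h⟩
        · rw [hi, Pi.single_eq_same]
          exact hΔ0
        · rw [Pi.single_eq_of_ne hi]
      · rw [Finset.sum_pi_single']
        simp
  -- the precision
  set g : ℝ := (n : ℝ) + 1 - Δ - n * β with hg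
  have hg0 : 0 < g := by linarith
  set ε : ℝ := min e (g / (d * (n * β + n + 1) + n * β + 1)) with hε
  have hden : 0 < d * (n * β + n + 1) + n * β + 1 := by positivity
  have hε0 : 0 < ε := lt_min he (div_pos hg0 hden)
  have hεe : ε ≤ e := min_le_left _ _
  have hεg : ε * (d * (n * β + n + 1) + n * β + 1) ≤ g := by
    have h1 : ε ≤ g / (d * (n * β + n + 1) + n * β + 1) := min_le_right _ _
    rwa [le_div_iff₀ hden] at h1
  obtain ⟨t0, ht0⟩ := scaleT hn hgen S a ha hd hL δ hδ0 (by rw [hδs]; exact hΔ) ε hε0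
  refine ⟨max t0 1, fun t ht => ?_⟩
  have htt : t0 ≤ t := (le_max_left _ _).trans ht
  have ht1 : 1 ≤ t := (le_max_right _ _).trans ht
  obtain ⟨P, h1, h2, h3, h4, h5⟩ := ht0 t htt
  have hH := log_mulHeight_nonneg P
  set h : ℝ := Real.log P.mulHeight with hh
  rw [hδs] at h4 h5
  have hεh : ε * h ≤ e * h := mul_le_mul_of_nonneg_right hεe hH
  refine ⟨P, h2, h1, h3.trans hεh, ?_, ?_⟩
  · rw [abs_le] at h5
    linarith [h5.1]
  · have hdt : d * t ≤ (1 + ε) * h := by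
      rw [abs_le] at h3
      linarith [h3.2]
    refine dist_of_pw (by positivity) (fun w => ?_) hn
    have h6 := h4 w
    rw [abs_le] at h6
    have hm1 : (1 : ℝ) ≤ (w.mult : ℝ) := by
      have : 0 < w.mult := w.mult_pos
      exact_mod_cast this
    have hm0 : (0 : ℝ) < (w.mult : ℝ) := by linarith
    -- `n m pw ≥ m (n + 1 - Δ) / d h - ε h`
    have h7 : (w.mult : ℝ) * (((n : ℝ) + 1 - Δ) / d) * h - ε * h ≤
        n * ((w.mult : ℝ) * pw ξ w (aff P)) := by linarith [h6.1]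
    have h8 : (w.mult : ℝ) * (((n : ℝ) + 1 - Δ) * h - ε * d * h) ≤
        (w.mult : ℝ) * (n * d * pw ξ w (aff P)) := by
      have h9 := mul_le_mul_of_nonneg_left h7 (zero_le_one.trans hd1)
      have e1 : d * ((w.mult : ℝ) * (((n : ℝ) + 1 - Δ) / d) * h - ε * h) =
          (w.mult : ℝ) * (((n : ℝ) + 1 - Δ) * h) - ε * d * h := by
        have : d ≠ 0 := by linarith
        field_simp
      rw [e1] at h9
      have h10 : ε * d * h ≤ (w.mult : ℝ) * (ε * d * h) := by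
        have : 0 ≤ ε * d * h := by positivity
        nlinarith
      have e2 : d * (n * ((w.mult : ℝ) * pw ξ w (aff P))) =
          (w.mult : ℝ) * (n * d * pw ξ w (aff P)) := by ring
      rw [e2] at h9
      linarith
    have h11 := le_of_mul_le_mul_left h8 hm0
    have hnd : 0 < (n : ℝ) * d := by positivity
    by_contra hcon
    push Not at hcon
    have h12 : (n : ℝ) * d * pw ξ w (aff P) < n * d * (β * t) := mul_lt_mul_of_pos_left hcon hnd
    have h13 : (n : ℝ) * d * (β * t) ≤ n * β * ((1 + ε) * h) := by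
      have : (n : ℝ) * d * (β * t) = n * β * (d * t) := by ring
      rw [this]
      exact mul_le_mul_of_nonneg_left hdt (by positivity)
    have h14 : (((n : ℝ) + 1 - Δ) - ε * d - n * β * (1 + ε)) * h < 0 := by linarith
    have h15 : 0 ≤ ((n : ℝ) + 1 - Δ) - ε * d - n * β * (1 + ε) := by
      have e3 : ((n : ℝ) + 1 - Δ) - ε * d - n * β * (1 + ε) = g - ε * (d + n * β) := by
        rw [hg]
        ring
      rw [e3]
      have h16 : ε * (d + n * β) ≤ ε * (d * (n * β + n + 1) + n * β + 1) := by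
        refine mul_le_mul_of_nonneg_left ?_ hε0.le
        have : 0 ≤ d * (n * β + n) := by positivity
        nlinarith
      linarith
    have h16 := mul_nonneg h15 hH
    linarith

open scoped Classical in
theorem dimN_low (hn : 1 ≤ n) (S : Finset (HeightOneSpectrum (𝓞 K)))
    (a : Fin r → Fin (n + 1) → K) (ha : ∀ i, a i ≠ 0)
    (hd : ∀ i l, i ≠ l → ∀ c : K, a i ≠ c • a l) {τ Δ : ℝ} (hτ : 0 < τ) (hΔ0 : 0 ≤ Δ)
    (hΔ : Δ ≤ 1 / 2) (hr : Δ = 0 ∨ 0 < r)
    (hτ2 : (n : ℝ) + 1 - Δ ≤ τ * (n * (Module.finrank ℚ K : ℝ))) :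
    ENNReal.ofReal (((n : ℝ) + 1 - Δ) / τ) ≤ dimH (WN S a τ Δ) := by
  have hn1 : (1 : ℝ) ≤ n := by exact_mod_cast hn
  set d : ℝ := (Module.finrank ℚ K : ℝ) with hdd
  have hd1 : (1 : ℝ) ≤ d := by
    have : 0 < Module.finrank ℚ K := Module.finrank_pos
    rw [hdd]
    exact_mod_cast this
  have hd0 : 0 < d := by linarith
  refine le_of_forall_lt fun A hA => ?_
  obtain ⟨s', hs1, hs2⟩ := ENNReal.lt_iff_exists_nnreal_btwn.1 hA
  have hpos : 0 < ((n : ℝ) + 1 - Δ) / τ := div_pos (by linarith) hτ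
  set s : ℝ≥0 := max s' (Real.toNNReal (((n : ℝ) + 1 - Δ) / τ / 2)) with hs
  have hslt : (s : ℝ≥0∞) < ENNReal.ofReal (((n : ℝ) + 1 - Δ) / τ) := by
    rw [hs, ENNReal.coe_max]
    refine max_lt hs2 ?_
    rw [ENNReal.ofNNReal_toNNReal]
    exact (ENNReal.ofReal_lt_ofReal_iff hpos).2 (by linarith)
  have hsr : (s : ℝ) < ((n : ℝ) + 1 - Δ) / τ := by
    rw [← ENNReal.ofReal_coe_nnreal] at hslt
    exact (ENNReal.ofReal_lt_ofReal_iff hpos).1 hslt
  have hs0 : (0 : ℝ) < s := by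
    have h3 : Real.toNNReal (((n : ℝ) + 1 - Δ) / τ / 2) ≤ s := le_max_right _ _
    have h4 : ((Real.toNNReal (((n : ℝ) + 1 - Δ) / τ / 2) : ℝ≥0) : ℝ) ≤ s := by exact_mod_cast h3
    rw [Real.coe_toNNReal _ (by positivity)] at h4
    linarith [show (0 : ℝ) < ((n : ℝ) + 1 - Δ) / τ / 2 by positivity]
  refine hs1.trans_le (le_trans (show (s' : ℝ≥0∞) ≤ s from by
    rw [hs]
    exact_mod_cast le_max_left _ _) ?_)
  have i1 : BorelSpace (Fin n → mixedSpace K) := Pi.borelSpace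
  apply le_dimH_of_hausdorffMeasure_ne_zero
  have hsτ : (s : ℝ) * τ < (n : ℝ) + 1 - Δ := by
    rwa [lt_div_iff₀ hτ] at hsr
  obtain ⟨b', hb1, hb2⟩ := exists_between hsτ
  set β : ℝ := b' / n with hβd
  have hnβ : (n : ℝ) * β = b' := by
    rw [hβd]
    field_simp
  have hb0 : 0 < b' := lt_of_le_of_lt (by positivity) hb1
  have hβ0 : 0 < β := by positivity
  -- the levels
  set e : ℕ → ℝ := fun k => 1 / ((k : ℝ) + 1) with he
  have he0 : ∀ k, 0 < e k := fun k => by positivity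
  -- a slightly smaller loss
  set Δ' : ℕ → ℝ := fun k => max 0 (Δ - e k / 4) with hΔ'
  have hΔ'0 : ∀ k, 0 ≤ Δ' k := fun k => le_max_left _ _
  have hΔ'1 : ∀ k, Δ' k < 1 / 2 := fun k => max_lt (by norm_num) (by linarith [he0 k])
  have hΔ'2 : ∀ k, Δ - e k / 4 ≤ Δ' k := fun k => le_max_right _ _
  have hΔ'3 : ∀ k, Δ' k ≤ Δ := fun k => max_le hΔ0 (by linarith [he0 k])
  have hΔ'r : ∀ k, Δ' k = 0 ∨ 0 < r := fun k => by
    rcases hr with h | h
    · left
      exact le_antisymm (by rw [← h]; exact hΔ'3 k) (hΔ'0 k)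
    · exact Or.inr h
  have hcov := fun k => cover_ae hn S a ha hd (hΔ'0 k) (hΔ'1 k) (hΔ'r k) hβ0
    (show (n : ℝ) * β < (n : ℝ) + 1 - Δ' k by rw [hnβ]; linarith [hΔ'3 k])
    (show 0 < e k / 4 by linarith [he0 k])
  set Y : ℕ → ℝ → Set (Fin n → mixedSpace K) := fun k t =>
    {z | ∃ P : ℙ K (Fin (n + 1) → K), z = (fun j => mixedEmbedding K (aff P j)) ∧ P.rep 0 ≠ 0 ∧
      (∀ i, lin (a i) P.rep ≠ 0) ∧
      |d * t - Real.log P.mulHeight| ≤ e k / 4 * Real.log P.mulHeight ∧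
      (Δ' k - e k / 4) * Real.log P.mulHeight ≤ hW a P.rep - N1 S a P.rep} with hY
  have i0 : (volume : Measure (mixedSpace K)).IsAddHaarMeasure := inferInstance
  have i5 : ContinuousAdd (mixedSpace K) := inferInstance
  have i7 : MeasurableAdd (mixedSpace K) := ContinuousAdd.measurableAdd
  have i3 : ∀ i : Fin n, MeasurableAdd (mixedSpace K) := fun _ => i7
  have i2 : (volume : Measure (Fin n → mixedSpace K)).IsAddHaarMeasure :=
    Measure.pi.isAddHaarMeasure (fun _ => volume)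
  have key : Q273.MV.S_UBI := Pool.Agent.Q61.MV.ubi Pool.Agent.Q198.MV.cantor
  unfold Q273.MV.S_UBI at key
  have hne := @key (Fin n → mixedSpace K) _ _ _ _ i1 volume i2 0 1 s (d * τ) β Y
    (fun k m => {ξ | ∀ t : ℝ, (m : ℝ) ≤ t → ∃ y ∈ Y k t, ‖ξ - y‖ ≤ Real.exp (-(β * t))})
    one_pos (by exact_mod_cast hs0) hβ0
    (by
      have h1 : (n : ℝ) * β < n * (d * τ) := by
        rw [hnβ]
        refine hb2.trans_le (hτ2.trans (le_of_eq ?_))
        ring
      exact lt_of_mul_lt_mul_left h1 (by linarith))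
    (by
      rw [finrank_mixed]
      have h1 : (n : ℝ) * d * β = d * b' := by
        rw [← hnβ]
        ring
      rw [h1]
      nlinarith)
    (fun k m m' hm ξ hξ t ht => hξ t (le_trans (by exact_mod_cast hm) ht))
    (fun k => by
      filter_upwards [hcov k] with ξ hξ
      obtain ⟨t1, ht1⟩ := hξ
      obtain ⟨m, hm⟩ := exists_nat_ge t1
      refine ⟨m, fun t ht => ?_⟩
      obtain ⟨P, h1, h2, h3, h4, h5⟩ := ht1 t (hm.trans ht)
      exact ⟨_, ⟨P, rfl, h1, h2, h3, h4⟩, h5⟩)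
    (fun k m => ⟨m, fun t ht ξ hξ => hξ t ht⟩)
  intro hzero
  apply hne
  refine measure_mono_null ?_ hzero
  rintro ξ ⟨_, hξ⟩
  intro ε hε B
  -- the level
  obtain ⟨k, hk⟩ := exists_nat_ge (max (max (1 / ε) (τ / ε)) (2 * |B| + 1))
  have hk1 : 1 / ε ≤ (k : ℝ) := ((le_max_left _ _).trans (le_max_left _ _)).trans hk
  have hk2 : τ / ε ≤ (k : ℝ) := ((le_max_right _ _).trans (le_max_left _ _)).trans hk
  have hk3 : 2 * |B| + 1 ≤ (k : ℝ) := (le_max_right _ _).trans hk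
  have hk0 : (0 : ℝ) ≤ k := Nat.cast_nonneg k
  have hek1 : e k ≤ 1 := by
    rw [he]
    simp only
    rw [div_le_one (by linarith)]
    linarith
  have heε : e k ≤ ε := by
    rw [he]
    simp only
    rw [div_le_iff₀ (by linarith)]
    rw [div_le_iff₀ hε] at hk1
    nlinarith
  have heτ : e k * τ ≤ ε := by
    rw [he]
    simp only
    rw [div_mul_eq_mul_div, one_mul, div_le_iff₀ (by linarith)]
    rw [div_le_iff₀ hε] at hk2
    nlinarith
  obtain ⟨t, ht, y, ⟨P, rfl, hP0, hP1, hP2, hP3⟩, hdist⟩ := hξ k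
  have hH := log_mulHeight_nonneg P
  set h : ℝ := Real.log P.mulHeight with hh
  have ht0 : 0 ≤ t := hk0.trans ht
  have hPa := abs_le.1 hP2
  have hlow : (1 - e k / 4) * h ≤ d * t := by linarith [hPa.1]
  have hup : d * t ≤ (1 + e k / 4) * h := by linarith [hPa.2]
  refine ⟨P, hP0, hP1, ?_, hdist.trans (Real.exp_le_exp.2 ?_), ?_⟩
  · have h1 : t ≤ d * t := by nlinarith
    have h2 : (1 + e k / 4) * h ≤ 2 * h := mul_le_mul_of_nonneg_right (by linarith) hH
    have h3 := le_abs_self B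
    linarith
  · have h1 : (τ - ε) * h ≤ τ * ((1 - e k / 4) * h) := by
      have h2 : (τ - ε) ≤ τ * (1 - e k / 4) := by
        have : 0 ≤ e k * τ := mul_nonneg (he0 k).le hτ.le
        nlinarith
      have h3 := mul_le_mul_of_nonneg_right h2 hH
      linarith
    have h4 := mul_le_mul_of_nonneg_left hlow hτ.le
    have e1 : d * τ * t = τ * (d * t) := by ring
    rw [e1]
    linarith
  · refine le_trans (mul_le_mul_of_nonneg_right ?_ hH) hP3
    linarith [hΔ'2 k, he0 k]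

open scoped Classical in
/-- the exact dimension -/
theorem dimN (hn : 1 ≤ n) (S : Finset (HeightOneSpectrum (𝓞 K)))
    (a : Fin r → Fin (n + 1) → K) (ha : ∀ i, a i ≠ 0)
    (hd : ∀ i l, i ≠ l → ∀ c : K, a i ≠ c • a l) {τ Δ : ℝ} (hτ : 0 < τ) (hΔ0 : 0 ≤ Δ)
    (hΔ : Δ ≤ 1 / 2) (hr : Δ = 0 ∨ 0 < r) :
    dimH (WN S a τ Δ) = ENNReal.ofReal
      (min (n * (Module.finrank ℚ K : ℝ)) (((n : ℝ) + 1 - Δ) / τ)) := by
  have hn1 : (1 : ℝ) ≤ n := by exact_mod_cast hn
  have hd0 : (0 : ℝ) < (Module.finrank ℚ K : ℝ) := by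
    exact_mod_cast Module.finrank_pos
  have hnd : 0 < (n : ℝ) * (Module.finrank ℚ K : ℝ) := by positivity
  have htriv : ∀ W : Set (Fin n → mixedSpace K),
      dimH W ≤ ENNReal.ofReal (n * (Module.finrank ℚ K : ℝ)) := by
    intro W
    refine (dimH_mono (Set.subset_univ W)).trans (le_of_eq ?_)
    rw [Real.dimH_univ_eq_finrank, ← finrank_mixed, ENNReal.ofReal_natCast]
  rcases le_or_gt (((n : ℝ) + 1 - Δ) / τ) (n * (Module.finrank ℚ K : ℝ)) with h | h
  · rw [min_eq_right h]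
    refine le_antisymm (dimN_up S a ha hτ hΔ0 hΔ) (dimN_low hn S a ha hd hτ hΔ0 hΔ hr ?_)
    rw [div_le_iff₀ hτ] at h
    linarith
  · rw [min_eq_left h.le]
    refine le_antisymm (htriv _) ?_
    set τ' : ℝ := ((n : ℝ) + 1 - Δ) / (n * (Module.finrank ℚ K : ℝ)) with hτ'
    have hnum : 0 < (n : ℝ) + 1 - Δ := by linarith
    have hτ'0 : 0 < τ' := div_pos hnum hnd
    have hττ' : τ ≤ τ' := by
      rw [lt_div_iff₀ hτ] at h
      rw [hτ', le_div_iff₀ hnd]
      linarith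
    have h2 := dimN_low hn S a ha hd hτ'0 hΔ0 hΔ hr (by
      rw [hτ', div_mul_cancel₀ _ hnd.ne'])
    have e1 : ((n : ℝ) + 1 - Δ) / τ' = n * (Module.finrank ℚ K : ℝ) := by
      rw [hτ', div_div_eq_mul_div, mul_comm, mul_div_assoc, div_self hnum.ne', mul_one]
    rw [e1] at h2
    refine h2.trans (dimH_mono fun ξ hξ => ?_)
    intro ε hε B
    obtain ⟨P, h3, h4, h5, h6, h7⟩ := hξ ε hε B
    refine ⟨P, h3, h4, h5, h6.trans (Real.exp_le_exp.2 ?_), h7⟩
    have h8 : (τ - ε) * Real.log P.mulHeight ≤ (τ' - ε) * Real.log P.mulHeight :=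
      mul_le_mul_of_nonneg_right (by linarith) (log_mulHeight_nonneg P)
    linarith

end Q273.PD
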