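import Pool.Agent.Q273.AD.Fin
import Pool.Agent.Q273.PN.Mono

/-!
# The exact limit set of (proximities, total loss) at almost every adele
-/

set_option autoImplicit false
set_option linter.unusedSectionVars false

namespace Q273.PD

open MeasureTheory NumberField NumberField.mixedEmbedding NumberField.InfinitePlace
open IsDedekindDomain Finset Pool.Agent.W232.VA Pool.Agent.H691R3 Height
open LinearAlgebra.Projectivization
open Q273.MV (prox Gen aff mulHeight_rep finite_low log_mulHeight_nonneg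
  infinite_primes gen_ae)
open Q273.AD
open scoped NNReal ENNReal

variable {K : Type} [Field K] [NumberField K] {n r : ℕ}

open scoped Classical in
/-- `(τ, σ, Δ)` is a limit of `(n m_w / h, n m_v / h, loss / h)` -/
def LimN (S V : Finset (HeightOneSpectrum (𝓞 K))) (a : Fin r → Fin (n + 1) → K)
    (p : (Fin n → mixedSpace K) × FinAd K n) (τ : InfinitePlace K → ℝ)
    (σ : HeightOneSpectrum (𝓞 K) → ℝ) (Δ : ℝ) : Prop :=
  ∀ ε : ℝ, 0 < ε → ∀ B : ℝ, ∃ P : ℙ K (Fin (n + 1) → K), P.rep 0 ≠ 0 ∧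
    (∀ i, lin (a i) P.rep ≠ 0) ∧ B ≤ Real.log P.mulHeight ∧
    (∀ w : InfinitePlace K, |n * ((w.mult : ℝ) * pw p.1 w (aff P)) / Real.log P.mulHeight - τ w| ≤ ε) ∧
    (∀ v ∈ V, |n * pv v (p.2 v) (aff P) / Real.log P.mulHeight - σ v| ≤ ε) ∧
    |(hW a P.rep - N1 S a P.rep) / Real.log P.mulHeight - Δ| ≤ ε

lemma of_div {x h t ε : ℝ} (hh : 0 < h) (H : |x / h - t| ≤ ε) : |x - t * h| ≤ ε * h := by
  have e : x - t * h = (x / h - t) * h := by
    field_simp
  rw [e, abs_mul, abs_of_pos hh]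
  exact mul_le_mul_of_nonneg_right H hh.le

lemma pw_nonneg' (ξ : Fin n → mixedSpace K) (w : InfinitePlace K) (y : Fin n → K) :
    0 ≤ pw ξ w y := by
  unfold pw
  exact Real.log_nonneg (le_max_left _ _)

lemma pv_nonneg' (v : HeightOneSpectrum (𝓞 K)) (η : Fin n → v.adicCompletionIntegers K)
    (y : Fin n → K) : 0 ≤ pv v η y := by
  unfold pv
  exact Real.log_nonneg (le_max_left _ _)

open scoped Classical in
/-- the conditions are necessary -/
theorem LimN.nec {S V : Finset (HeightOneSpectrum (𝓞 K))} {a : Fin r → Fin (n + 1) → K}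
    {p : (Fin n → mixedSpace K) × FinAd K n} {τ : InfinitePlace K → ℝ}
    {σ : HeightOneSpectrum (𝓞 K) → ℝ} {Δ : ℝ} (ha : ∀ i, a i ≠ 0) (hlaw : LawAt p S a)
    (h : LimN S V a p τ σ Δ)
    (hr : Δ ≤ 1 / 2 ∨ (n : ℝ) + 1 / 2 < ∑ w, τ w + ∑ v ∈ V, σ v) :
    (∀ w, 0 ≤ τ w) ∧ (∀ v ∈ V, 0 ≤ σ v) ∧ 0 ≤ Δ ∧ ∑ w, τ w + ∑ v ∈ V, σ v + Δ ≤ n + 1 := by
  have hn0 : (0 : ℝ) ≤ n := Nat.cast_nonneg n
  refine ⟨fun w => ?_, fun v hv => ?_, ?_, ?_⟩
  · refine le_of_forall_pos_le_add fun ε hε => ?_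
    obtain ⟨P, _, _, h3, h4, _, _⟩ := h ε hε 1
    have hH : 0 < Real.log P.mulHeight := lt_of_lt_of_le one_pos h3
    have h5 := (abs_le.1 (h4 w)).2
    have h6 : 0 ≤ n * ((w.mult : ℝ) * pw p.1 w (aff P)) / Real.log P.mulHeight :=
      div_nonneg (mul_nonneg hn0 (mul_nonneg (Nat.cast_nonneg _) (pw_nonneg' _ _ _))) hH.le
    have h7 := (abs_le.1 (h4 w)).2
    linarith
  · refine le_of_forall_pos_le_add fun ε hε => ?_
    obtain ⟨P, _, _, h3, _, h4, _⟩ := h ε hε 1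
    have hH : 0 < Real.log P.mulHeight := lt_of_lt_of_le one_pos h3
    have h5 := (abs_le.1 (h4 v hv)).2
    have h6 : 0 ≤ n * pv v (p.2 v) (aff P) / Real.log P.mulHeight :=
      div_nonneg (mul_nonneg hn0 (pv_nonneg' _ _ _)) hH.le
    linarith
  · refine le_of_forall_pos_le_add fun ε hε => ?_
    obtain ⟨P, _, h2, h3, _, _, h4⟩ := h ε hε 1
    have hH : 0 < Real.log P.mulHeight := lt_of_lt_of_le one_pos h3
    have h5 := (abs_le.1 h4).2
    have h6 : 0 ≤ (hW a P.rep - N1 S a P.rep) / Real.log P.mulHeight :=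
      div_nonneg (Q273.MV.loss_nonneg S ha P.rep_nonzero h2) hH.le
    linarith
  · by_contra hcon
    push Not at hcon
    set T : ℝ := ∑ w, τ w + ∑ v ∈ V, σ v with hT
    have hT1 : (n : ℝ) + 1 / 2 < T := by
      rcases hr with h1 | h1
      · linarith
      · exact h1
    -- the number of places
    set N : ℝ := (Fintype.card (InfinitePlace K) : ℝ) + V.card with hN
    have hN0 : 0 ≤ N := by positivity
    set η : ℝ := min ((T - (n + 1 / 2)) / 4) ((T + Δ - (n + 1)) / 5) with hη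
    have hη0 : 0 < η := lt_min (by linarith) (by linarith)
    have hη1 : η ≤ (T - (n + 1 / 2)) / 4 := min_le_left _ _
    have hη2 : η ≤ (T + Δ - (n + 1)) / 5 := min_le_right _ _
    obtain ⟨C, hC⟩ := hlaw V η hη0
    set ε : ℝ := η / (N + 1) with hε
    have hε0 : 0 < ε := by positivity
    have hεN : (N + 1) * ε = η := by
      rw [hε]
      field_simp
    obtain ⟨P, _, h2, h3, h4, h5, h6⟩ := h ε hε0 (max 1 (|C| / η))
    have hH : 0 < Real.log P.mulHeight := lt_of_lt_of_le one_pos ((le_max_left _ _).trans h3)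
    set H : ℝ := Real.log P.mulHeight with hHd
    have hCη : C ≤ η * H := by
      have h7 : |C| / η ≤ H := (le_max_right _ _).trans h3
      rw [div_le_iff₀ hη0] at h7
      linarith [le_abs_self C]
    have hpr : prA V p (aff P) = ∑ w : InfinitePlace K, (w.mult : ℝ) * pw p.1 w (aff P) +
        ∑ v ∈ V, pv v (p.2 v) (aff P) := by
      unfold prA
      rw [prox_eq]
    have hlow : (T - N * ε) * H ≤ n * prA V p (aff P) := by
      rw [hpr, mul_add, Finset.mul_sum, Finset.mul_sum]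
      have h7 : ∑ w : InfinitePlace K, (τ w - ε) * H ≤
          ∑ w : InfinitePlace K, n * ((w.mult : ℝ) * pw p.1 w (aff P)) :=
        Finset.sum_le_sum fun w _ => by
          have := (abs_le.1 (of_div hH (h4 w))).1
          linarith
      have h8 : ∑ v ∈ V, (σ v - ε) * H ≤ ∑ v ∈ V, n * pv v (p.2 v) (aff P) :=
        Finset.sum_le_sum fun v hv => by
          have := (abs_le.1 (of_div hH (h5 v hv))).1
          linarith
      rw [← Finset.sum_mul, Finset.sum_sub_distrib, Finset.sum_const, Finset.card_univ,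
        nsmul_eq_mul] at h7
      rw [← Finset.sum_mul, Finset.sum_sub_distrib, Finset.sum_const, nsmul_eq_mul] at h8
      have e1 : (T - N * ε) * H = (∑ w, τ w - (Fintype.card (InfinitePlace K) : ℝ) * ε) * H +
          (∑ v ∈ V, σ v - (V.card : ℝ) * ε) * H := by
        rw [hT, hN]
        ring
      rw [e1]
      linarith
    have hloss := (abs_le.1 (of_div hH h6)).1
    have hNε : N * ε ≤ η := by linarith [hε0]
    have hεη : ε ≤ η := by
      have : 0 ≤ N * ε := by positivity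
      linarith
    have h7 : ((n : ℝ) + 1 / 2 + η) * H ≤ n * prA V p (aff P) := by
      refine le_trans (mul_le_mul_of_nonneg_right ?_ hH.le) hlow
      linarith
    have h8 := hC P h2 (Or.inl h7)
    have h9 : (T + Δ - 2 * η) * H ≤ (n + 1 + η) * H + η * H := by
      have h10 : (T - η) * H ≤ n * prA V p (aff P) :=
        le_trans (mul_le_mul_of_nonneg_right (by linarith) hH.le) hlow
      have h11 : (Δ - η) * H ≤ hW a P.rep - N1 S a P.rep := by
        have : ε * H ≤ η * H := mul_le_mul_of_nonneg_right hεη hH.le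
        linarith
      linarith
    have h10 : T + Δ - 2 * η ≤ n + 1 + η + η := by
      have : (T + Δ - 2 * η) * H ≤ (n + 1 + η + η) * H := by linarith
      exact le_of_mul_le_mul_right this hH
    linarith

open scoped Classical in
/-- the conditions are sufficient, for every distribution of the loss among the hyperplanes -/
theorem lim_suf (hn : 1 ≤ n) {p : (Fin n → mixedSpace K) × FinAd K n} (hgen : Gen p.1 ∧ GenF p.2)
    (S V : Finset (HeightOneSpectrum (𝓞 K))) (a : Fin r → Fin (n + 1) → K) (ha : ∀ i, a i ≠ 0)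
    (hd : ∀ i l, i ≠ l → ∀ c : K, a i ≠ c • a l) (hlaw : LawAt p S a)
    {τ : InfinitePlace K → ℝ} {σ : HeightOneSpectrum (𝓞 K) → ℝ} {δ : Fin r → ℝ}
    (hτ : ∀ w, 0 ≤ τ w) (hσ : ∀ v ∈ V, 0 ≤ σ v) (hδ : ∀ i, 0 ≤ δ i)
    (hr : ∑ i, δ i ≤ 1 / 2 ∨ (n : ℝ) + 1 / 2 < ∑ w, τ w + ∑ v ∈ V, σ v)
    (hsum : ∑ w, τ w + ∑ v ∈ V, σ v + ∑ i, δ i ≤ n + 1) (ε : ℝ) (hε : 0 < ε) (B : ℝ) :
    ∃ P : ℙ K (Fin (n + 1) → K), P.rep 0 ≠ 0 ∧
      (∀ i, lin (a i) P.rep ≠ 0) ∧ B ≤ Real.log P.mulHeight ∧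
      (∀ w : InfinitePlace K,
        |n * ((w.mult : ℝ) * pw p.1 w (aff P)) / Real.log P.mulHeight - τ w| ≤ ε) ∧
      (∀ v ∈ V, |n * pv v (p.2 v) (aff P) / Real.log P.mulHeight - σ v| ≤ ε) ∧
      |(hW a P.rep - N1 S a P.rep) / Real.log P.mulHeight - ∑ i, δ i| ≤ ε ∧
      ∀ i, |N1 S (fun _ : Fin 1 => a i) P.rep / Real.log P.mulHeight - (1 - δ i)| ≤ ε := by
  have hσs : ∑ v ∈ V, max (σ v) 0 = ∑ v ∈ V, σ v :=
    Finset.sum_congr rfl fun v hv => max_eq_left (hσ v hv)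
  obtain ⟨P, h1, h2, h3, h4, h4', h5, h6⟩ := Q273.AD.sharpA2 hn hgen.1 hgen.2 S a ha hd
    hlaw V τ (fun v => max (σ v) 0) δ hτ (fun v => le_max_right _ _) hδ (by
      rcases hr with h | h
      · exact h
      · linarith) (by rw [hσs]; exact hsum) ε hε (max B 1)
  have hH : 0 < Real.log P.mulHeight := lt_of_lt_of_le one_pos ((le_max_right _ _).trans h3)
  refine ⟨P, h2, h1, (le_max_left _ _).trans h3, fun w => ?_, fun v hv => ?_, ?_, fun i => ?_⟩
  · rw [div_sub' hH.ne', abs_div, abs_of_pos hH, div_le_iff₀ hH]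
    rw [mul_comm (Real.log P.mulHeight)]
    exact h4 w
  · rw [div_sub' hH.ne', abs_div, abs_of_pos hH, div_le_iff₀ hH]
    rw [mul_comm (Real.log P.mulHeight)]
    have := h4' v hv
    simp only [max_eq_left (hσ v hv)] at this
    exact this
  · rw [div_sub' hH.ne', abs_div, abs_of_pos hH, div_le_iff₀ hH]
    rw [mul_comm (Real.log P.mulHeight)]
    exact h5
  · rw [div_sub' hH.ne', abs_div, abs_of_pos hH, div_le_iff₀ hH]
    have h7 := h6 i
    rw [← abs_neg] at h7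
    refine le_trans (le_of_eq ?_) h7
    congr 1
    ring

open scoped Classical in
/-- the exact limit set -/
theorem LimN.iff (hn : 1 ≤ n) (h0 : 0 < r) {p : (Fin n → mixedSpace K) × FinAd K n}
    (hgen : Gen p.1 ∧ GenF p.2)
    (S V : Finset (HeightOneSpectrum (𝓞 K))) (a : Fin r → Fin (n + 1) → K) (ha : ∀ i, a i ≠ 0)
    (hd : ∀ i l, i ≠ l → ∀ c : K, a i ≠ c • a l) (hlaw : LawAt p S a)
    {τ : InfinitePlace K → ℝ} {σ : HeightOneSpectrum (𝓞 K) → ℝ} {Δ : ℝ}
    (hr : Δ ≤ 1 / 2 ∨ (n : ℝ) + 1 / 2 < ∑ w, τ w + ∑ v ∈ V, σ v) :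
    LimN S V a p τ σ Δ ↔
      (∀ w, 0 ≤ τ w) ∧ (∀ v ∈ V, 0 ≤ σ v) ∧ 0 ≤ Δ ∧ ∑ w, τ w + ∑ v ∈ V, σ v + Δ ≤ n + 1 := by
  refine ⟨fun h => h.nec ha hlaw hr, ?_⟩
  rintro ⟨h1, h2, h3, h4⟩ ε hε B
  have hs : ∑ i, (Pi.single (⟨0, h0⟩ : Fin r) Δ : Fin r → ℝ) i = Δ := by
    rw [Finset.sum_pi_single']
    simp
  obtain ⟨P, g1, g2, g3, g4, g5, g6, _⟩ := lim_suf hn hgen S V a ha hd hlaw
    (δ := Pi.single (⟨0, h0⟩ : Fin r) Δ) h1 h2 (fun i => by
      by_cases hi : i = ⟨0, h0⟩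
      · rw [hi, Pi.single_eq_same]
        exact h3
      · rw [Pi.single_eq_of_ne hi]) (by rw [hs]; exact hr) (by rw [hs]; exact h4) ε hε B
  rw [hs] at g6
  exact ⟨P, g1, g2, g3, g4, g5, g6⟩

end Q273.PD
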