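import Pool.Agent.Q273.AD.Sharp

/-!
# Integral vectors near an adelic point, at the places of `V`
-/

set_option autoImplicit false
set_option linter.unusedSectionVars false

namespace Q273.PD

open NumberField NumberField.mixedEmbedding NumberField.InfinitePlace
open IsDedekindDomain Finset Pool.Agent.W232.VA Pool.Agent.H691R3 Height Q273.MV
open Q273.AD

variable {K : Type} [Field K] [NumberField K] {n r : ℕ}

/-- a finite adelic vector which is on no hyperplane over `K` at the primes of `V` -/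
def GenV (V : Finset (HeightOneSpectrum (𝓞 K))) (η : FinAd K n) : Prop :=
  ∀ v ∈ V, ∀ b : Fin (n + 1) → K, b ≠ 0 →
    FinitePlace.embedding v (b 0) +
      ∑ j : Fin n, FinitePlace.embedding v (b j.succ) * (η v j : v.adicCompletion K) ≠ 0

lemma GenV.ne {V : Finset (HeightOneSpectrum (𝓞 K))} {η : FinAd K n} (h : GenV V η)
    (v : HeightOneSpectrum (𝓞 K)) (hv : v ∈ V) (y : K) (j : Fin n) :
    (η v j : v.adicCompletion K) ≠ FinitePlace.embedding v y := by
  intro h0
  have h1 := h v hv (Fin.cons (-y) (Pi.single j 1)) (by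
    intro h0
    have h2 := congrFun h0 (Fin.succ j)
    rw [Fin.cons_succ, Pi.single_eq_same] at h2
    exact one_ne_zero h2)
  apply h1
  rw [Fin.cons_zero, Finset.sum_eq_single j]
  · rw [Fin.cons_succ, Pi.single_eq_same, map_one, one_mul, map_neg, h0, neg_add_cancel]
  · intro i _ hj
    rw [Fin.cons_succ, Pi.single_eq_of_ne hj, map_zero, zero_mul]
  · intro h
    exact absurd (Finset.mem_univ _) h

/-- as `Q273.AD.low3`, with a condition at the primes of `V` only -/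
theorem low4 (hpig : S_PIG3) (hzero : S_ZERO) (hlocv : S_LOCV) (harch : S_ARCH3) (hapx : S_FAPX)
    (hn : 1 ≤ n) {ξ : Fin n → mixedSpace K} {η : FinAd K n} (hξ : Gen ξ)
    (b : Fin r → Fin (n + 1) → 𝓞 K) (P : Fin r → HeightOneSpectrum (𝓞 K))
    (V : Finset (HeightOneSpectrum (𝓞 K)))
    (hη : ∀ v ∈ V, ∀ (y : K) (j : Fin n), (η v j : v.adicCompletion K) ≠ FinitePlace.embedding v y)
    (τ : InfinitePlace K → ℝ) (σ : HeightOneSpectrum (𝓞 K) → ℝ) (δ : Fin r → ℝ)
    (hτ : ∀ w, 0 ≤ τ w) (hσ : ∀ v, 0 ≤ σ v) (hδ : ∀ i, 0 ≤ δ i) (hΔ : ∑ i, δ i < 1)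
    (hsum : ∑ w, τ w + ∑ v ∈ V, σ v + ∑ i, δ i = n + 1) :
    ∃ C t0 : ℝ, 0 ≤ C ∧ ∀ t : ℝ, 0 ≤ t → t0 ≤ t → ∃ (x : Fin (n + 1) → 𝓞 K) (k : Fin r → ℕ),
      x 0 ≠ 0 ∧
      (∀ i, linZ (b i) x ∈ (P i).asIdeal ^ (k i)) ∧
      (∀ i, δ i * ((Module.finrank ℚ K : ℝ) * t) - C ≤ (k i : ℝ) * Real.log (Nv (P i))) ∧
      (∀ w : InfinitePlace K, Real.log (⨆ j, w (cz x j)) ≤ t + C) ∧
      (∀ w : InfinitePlace K, τ w * ((Module.finrank ℚ K : ℝ) * t) +
          n * ((w.mult : ℝ) * (Real.log (⨆ j, w (cz x j)) - t)) - C ≤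
        n * ((w.mult : ℝ) * pw ξ w
          (fun j => ((x j.succ : 𝓞 K) : K) / ((x 0 : 𝓞 K) : K)))) ∧
      ∀ v ∈ V, σ v * ((Module.finrank ℚ K : ℝ) * t) + n * lg v (cz x) - C ≤
        n * pv v (η v) (fun j => ((x j.succ : 𝓞 K) : K) / ((x 0 : 𝓞 K) : K)) := by
  classical
  obtain ⟨C1, hC1, hpig⟩ := hpig K n ξ
  obtain ⟨C2, hC2, harch⟩ := harch K n hn ξ (fun w j y => gen_ne' hξ w j y)
  set d : ℕ := Module.finrank ℚ K with hd
  have hdpos : 0 < d := Module.finrank_pos
  have hdr : (0 : ℝ) < (d : ℝ) := by exact_mod_cast hdpos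
  have hnr : (0 : ℝ) < (n : ℝ) := by exact_mod_cast hn
  have hlogC1 : 0 ≤ Real.log C1 := Real.log_nonneg hC1
  have hC10 : 0 < C1 := by linarith
  have hNsum : 0 ≤ ∑ i, Real.log (Nv (P i)) := Finset.sum_nonneg fun i _ => (log_Nv_pos _).le
  have hVsum : 0 ≤ ∑ v ∈ V, Real.log (Nv v) := Finset.sum_nonneg fun i _ => (log_Nv_pos _).le
  set Δ : ℝ := ∑ i, δ i with hΔdef
  have h1Δ : 0 < 1 - Δ := by linarith
  have hmult0 : ∀ w : InfinitePlace K, (0 : ℝ) < (w.mult : ℝ) := fun w => by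
    exact_mod_cast w.mult_pos
  have hmult2 : ∀ w : InfinitePlace K, (w.mult : ℝ) ≤ 2 := fun w => by
    rcases w.isReal_or_isComplex with h | h
    · have := InfinitePlace.mult_isReal ⟨w, h⟩
      rw [show w.mult = 1 from this]
      norm_num
    · have := InfinitePlace.mult_isComplex ⟨w, h⟩
      rw [show w.mult = 2 from this]
      norm_num
  set CC : ℝ := ∑ i, Real.log (Nv (P i)) + n * ∑ v ∈ V, Real.log (Nv v) +
    (2 * Real.log C1 + C2) + n * (2 * (2 * Real.log C1 + C2)) with hCC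
  refine ⟨CC, (n * (2 * (d * Real.log C1) + ∑ v ∈ V, Real.log (Nv v)) + 1) / ((1 - Δ) * d),
    by positivity, fun t ht ht0 => ?_⟩
  rw [div_le_iff₀ (mul_pos h1Δ hdr)] at ht0
  set k : Fin r → ℕ := fun i => ⌊δ i * (d * t) / Real.log (Nv (P i))⌋₊ with hk
  set m : HeightOneSpectrum (𝓞 K) → ℕ := fun v => ⌊σ v * (d * t) / (n * Real.log (Nv v))⌋₊ with hm
  have hk1 : ∀ i, (k i : ℝ) * Real.log (Nv (P i)) ≤ δ i * (d * t) := by
    intro i
    have h1 : (k i : ℝ) ≤ δ i * (d * t) / Real.log (Nv (P i)) :=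
      Nat.floor_le (div_nonneg (mul_nonneg (hδ i) (by positivity)) (log_Nv_pos _).le)
    rwa [le_div_iff₀ (log_Nv_pos _)] at h1
  have hk2 : ∀ i, δ i * (d * t) - Real.log (Nv (P i)) ≤ (k i : ℝ) * Real.log (Nv (P i)) := by
    intro i
    have h1 : δ i * (d * t) / Real.log (Nv (P i)) < (k i : ℝ) + 1 := Nat.lt_floor_add_one _
    rw [div_lt_iff₀ (log_Nv_pos _)] at h1
    linarith
  have hm1 : ∀ v, (n : ℝ) * ((m v : ℝ) * Real.log (Nv v)) ≤ σ v * (d * t) := by
    intro v
    have hpos : 0 < (n : ℝ) * Real.log (Nv v) := mul_pos hnr (log_Nv_pos v)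
    have h1 : (m v : ℝ) ≤ σ v * (d * t) / (n * Real.log (Nv v)) :=
      Nat.floor_le (div_nonneg (mul_nonneg (hσ v) (by positivity)) hpos.le)
    rw [le_div_iff₀ hpos] at h1
    linarith
  have hm2 : ∀ v, σ v * (d * t) - n * Real.log (Nv v) ≤ n * ((m v : ℝ) * Real.log (Nv v)) := by
    intro v
    have hpos : 0 < (n : ℝ) * Real.log (Nv v) := mul_pos hnr (log_Nv_pos v)
    have h1 : σ v * (d * t) / (n * Real.log (Nv v)) < (m v : ℝ) + 1 := Nat.lt_floor_add_one _
    rw [div_lt_iff₀ hpos] at h1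
    linarith
  have hfin : ∀ i, Finite (𝓞 K ⧸ (P i).asIdeal ^ (k i)) := fun i =>
    Ideal.finiteQuotientOfFreeOfNeBot _ (pow_ne_zero _ (P i).ne_bot)
  have hfin2 : ∀ v : HeightOneSpectrum (𝓞 K), Finite (𝓞 K ⧸ v.asIdeal ^ (m v)) := fun v =>
    Ideal.finiteQuotientOfFreeOfNeBot _ (pow_ne_zero _ v.ne_bot)
  have hcard1 : (Nat.card (∀ i, 𝓞 K ⧸ (P i).asIdeal ^ (k i)) : ℝ) ≤ Real.exp (Δ * (d * t)) := by
    rw [Nat.card_pi]
    push_cast
    rw [Finset.prod_congr rfl fun i _ => card_quot (P i) (k i), ← Real.exp_sum]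
    refine Real.exp_le_exp.2 ?_
    rw [hΔdef, Finset.sum_mul]
    exact Finset.sum_le_sum fun i _ => hk1 i
  have hcard2 : (Nat.card (∀ v : V, Fin n → 𝓞 K ⧸ v.1.asIdeal ^ (m v.1)) : ℝ) ≤
      Real.exp ((∑ v ∈ V, σ v) * (d * t)) := by
    rw [Nat.card_pi]
    have e1 : ∀ v : V, (Nat.card (Fin n → 𝓞 K ⧸ v.1.asIdeal ^ (m v.1)) : ℝ) =
        Real.exp (n * ((m v.1 : ℝ) * Real.log (Nv v.1))) := by
      intro v
      rw [Nat.card_pi, Finset.prod_const, Finset.card_univ, Fintype.card_fin, Nat.cast_pow,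
        card_quot v.1 (m v.1), ← Real.exp_nat_mul]
    rw [Nat.cast_prod, Finset.prod_congr rfl fun v _ => e1 v, ← Real.exp_sum]
    refine Real.exp_le_exp.2 ?_
    rw [Finset.sum_mul, ← Finset.sum_coe_sort V (fun v => σ v * (d * t))]
    exact Finset.sum_le_sum fun v _ => hm1 v.1
  -- the approximations
  have hapx' : ∀ (v : HeightOneSpectrum (𝓞 K)) (j : Fin n), ∃ a : 𝓞 K,
      ‖(η v j : v.adicCompletion K) - FinitePlace.embedding v (a : K)‖ ≤ ((Nv v) ^ (m v))⁻¹ :=
    fun v j => hapx K v (η v j) (m v)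
  choose a ha using hapx'
  set X : ℝ := C1 * Real.exp t with hX
  set Y : InfinitePlace K → ℝ := fun w => C1 * Real.exp (t - τ w * (d * t) / (n * w.mult)) with hY
  have hY0 : ∀ w, 0 < Y w := fun w => mul_pos hC10 (Real.exp_pos _)
  have hX1 : 1 ≤ X := by
    have := Real.one_le_exp ht
    rw [hX]
    nlinarith
  have hτd : ∀ w : InfinitePlace K, 0 ≤ τ w * (d * t) / (n * w.mult) := fun w =>
    div_nonneg (mul_nonneg (hτ w) (by positivity)) (mul_pos hnr (hmult0 w)).le
  have hYX : ∀ w, Y w ≤ X := fun w => by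
    refine mul_le_mul_of_nonneg_left (Real.exp_le_exp.2 ?_) hC10.le
    have := hτd w
    linarith
  have hratio : ∀ w : InfinitePlace K, (X / Y w) ^ (n * w.mult) = Real.exp (τ w * (d * t)) := by
    intro w
    have e1 : X / Y w = Real.exp (τ w * (d * t) / (n * w.mult)) := by
      rw [hX, hY]
      simp only
      rw [mul_div_mul_left _ _ hC10.ne', ← Real.exp_sub]
      congr 1
      ring
    rw [e1, ← Real.exp_nat_mul]
    congr 1
    push_cast
    have h1 := (hmult0 w).ne'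
    have h2 := hnr.ne'
    field_simp
  set A : Type := (∀ i, 𝓞 K ⧸ (P i).asIdeal ^ (k i)) × (∀ v : V, Fin n → 𝓞 K ⧸ v.1.asIdeal ^ (m v.1))
    with hA
  have hcardA : (Nat.card A : ℝ) ≤ Real.exp (Δ * (d * t) + (∑ v ∈ V, σ v) * (d * t)) := by
    rw [hA, Nat.card_prod, Nat.cast_mul, Real.exp_add]
    exact mul_le_mul hcard1 hcard2 (Nat.cast_nonneg _) (Real.exp_pos _).le
  have hcount : C1 * (∏ w : InfinitePlace K, (X / Y w) ^ (n * w.mult)) * (Nat.card A : ℝ) ≤
      X ^ (d * (n + 1)) := by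
    rw [Finset.prod_congr rfl fun w _ => hratio w, ← Real.exp_sum, ← Finset.sum_mul, mul_assoc]
    have h1 : Real.exp ((∑ w, τ w) * (d * t)) * (Nat.card A : ℝ) ≤
        Real.exp ((n + 1) * (d * t)) := by
      have h2 := mul_le_mul_of_nonneg_left hcardA (Real.exp_pos ((∑ w, τ w) * (d * t))).le
      refine h2.trans (le_of_eq ?_)
      rw [← Real.exp_add]
      congr 1
      rw [← hsum]
      ring
    have h2 : Real.exp ((n + 1) * (d * t)) = (Real.exp t) ^ (d * (n + 1)) := by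
      rw [← Real.exp_nat_mul]
      congr 1
      push_cast
      ring
    have h3 : C1 ≤ C1 ^ (d * (n + 1)) := by
      have : 1 ≤ d * (n + 1) := Nat.one_le_iff_ne_zero.2 (by positivity)
      calc C1 = C1 ^ 1 := (pow_one _).symm
        _ ≤ C1 ^ (d * (n + 1)) := pow_le_pow_right₀ hC1 this
    rw [hX, mul_pow, ← h2]
    exact mul_le_mul h3 h1 (by positivity) (by positivity)
  obtain ⟨x, hx, hφ, hxX, hxY⟩ := hpig A
    ((phi b fun i => (P i).asIdeal ^ (k i)).prod (psi V a fun v => v.asIdeal ^ (m v))) X Y hX1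
    hY0 hYX hcount
  have hφ1 : ∀ i, linZ (b i) x ∈ (P i).asIdeal ^ (k i) := fun i => by
    have h3 := congrFun (congrArg Prod.fst hφ) i
    exact Ideal.Quotient.eq_zero_iff_mem.1 h3
  have hφ2 : ∀ v ∈ V, ∀ j : Fin n, x j.succ - a v j * x 0 ∈ v.asIdeal ^ (m v) := fun v hv j => by
    have h3 := congrFun (congrFun (congrArg Prod.snd hφ) ⟨v, hv⟩) j
    exact Ideal.Quotient.eq_zero_iff_mem.1 h3
  have hlogY : ∀ w : InfinitePlace K, Real.log (C1 * Y w) =
      2 * Real.log C1 + t - τ w * (d * t) / (n * w.mult) := by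
    intro w
    rw [Real.log_mul hC10.ne' (hY0 w).ne']
    have : Real.log (Y w) = Real.log C1 + (t - τ w * (d * t) / (n * w.mult)) := by
      rw [hY]
      simp only
      rw [Real.log_mul hC10.ne' (Real.exp_ne_zero _), Real.log_exp]
    rw [this]
    ring
  -- the first coordinate
  have hx0 : x 0 ≠ 0 := by
    intro h0
    obtain ⟨j, hj⟩ : ∃ j : Fin n, x j.succ ≠ 0 := by
      by_contra hcon
      push Not at hcon
      apply hx
      funext i
      refine Fin.cases h0 (fun j => hcon j) i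
    have h1 := hzero K (x j.succ) hj V m (fun w => C1 * Y w) (fun v hv => by
      have := hφ2 v hv j
      rw [h0, mul_zero, sub_zero] at this
      exact this) (fun w => mul_pos hC10 (hY0 w)) (fun w => by
      have := hxY w j
      rw [h0] at this
      simp only [map_zero, zero_mul, zero_sub] at this
      rw [normAtPlace_neg, normAtPlace_apply] at this
      exact this)
    have h2 : ∑ w : InfinitePlace K, (w.mult : ℝ) * Real.log (C1 * Y w) =
        d * (2 * Real.log C1 + t) - (∑ w, τ w) * (d * t) / n := by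
      have e1 : ∑ w : InfinitePlace K, (w.mult : ℝ) * Real.log (C1 * Y w) =
          (∑ w : InfinitePlace K, (w.mult : ℝ)) * (2 * Real.log C1 + t) -
            (∑ w, τ w) * (d * t) / n := by
        rw [Finset.sum_mul, Finset.sum_mul, Finset.sum_div, ← Finset.sum_sub_distrib]
        refine Finset.sum_congr rfl fun w _ => ?_
        rw [hlogY w]
        have h1 := (hmult0 w).ne'
        have h2 := hnr.ne'
        field_simp
      rw [e1, sum_mult_real]
    rw [h2] at h1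
    have h3 : (∑ v ∈ V, σ v) * (d * t) - n * ∑ v ∈ V, Real.log (Nv v) ≤
        n * ∑ v ∈ V, (m v : ℝ) * Real.log (Nv v) := by
      rw [Finset.sum_mul, Finset.mul_sum, Finset.mul_sum, ← Finset.sum_sub_distrib]
      exact Finset.sum_le_sum fun v _ => hm2 v
    have h4 := mul_le_mul_of_nonneg_left h1 hnr.le
    have h5 : (n : ℝ) * (d * (2 * Real.log C1 + t) - (∑ w, τ w) * (d * t) / n) =
        n * (d * (2 * Real.log C1 + t)) - (∑ w, τ w) * (d * t) := by
      field_simp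
    rw [h5] at h4
    have h6 : (∑ w, τ w) * (d * t) + (∑ v ∈ V, σ v) * (d * t) = (n + 1 - Δ) * (d * t) := by
      rw [← add_mul]
      congr 1
      linarith
    nlinarith
  have hC1X : ∀ w, C1 * Y w ≤ C1 * X := fun w => mul_le_mul_of_nonneg_left (hYX w) hC10.le
  have harch' := harch x hx0 (C1 * X) (fun w => C1 * Y w) (fun w => mul_pos hC10 (hY0 w))
    hC1X hxX hxY
  have hlogX : Real.log (C1 * X) = 2 * Real.log C1 + t := by
    rw [hX, Real.log_mul hC10.ne' (by positivity), Real.log_mul hC10.ne' (Real.exp_ne_zero _),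
      Real.log_exp]
    ring
  have hCi : ∀ i, Real.log (Nv (P i)) ≤ CC := fun i => by
    have h3 : Real.log (Nv (P i)) ≤ ∑ i, Real.log (Nv (P i)) :=
      Finset.single_le_sum (f := fun i => Real.log (Nv (P i))) (fun i _ => (log_Nv_pos _).le)
        (Finset.mem_univ i)
    have h4 : 0 ≤ (n : ℝ) * ∑ v ∈ V, Real.log (Nv v) + (2 * Real.log C1 + C2) +
      n * (2 * (2 * Real.log C1 + C2)) := by positivity
    rw [hCC]
    linarith
  refine ⟨x, k, hx0, hφ1, fun i => ?_, fun w => ?_, fun w => ?_, fun v hv => ?_⟩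
  · have h1 := hk2 i
    have h2 := hCi i
    linarith
  · have h1 := (harch' w).1
    rw [hlogX] at h1
    have h4 : 0 ≤ ∑ i, Real.log (Nv (P i)) + (n : ℝ) * ∑ v ∈ V, Real.log (Nv v) +
      n * (2 * (2 * Real.log C1 + C2)) := by positivity
    rw [hCC]
    linarith
  · have h1 := (harch' w).2
    rw [hlogY w] at h1
    have h2 : Real.log (⨆ j, w (cz x j)) - t + τ w * (d * t) / (n * w.mult) -
        (2 * Real.log C1 + C2) ≤ pw ξ w
          (fun j => ((x j.succ : 𝓞 K) : K) / ((x 0 : 𝓞 K) : K)) := by linarith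
    have h3 := mul_le_mul_of_nonneg_left h2 (mul_pos hnr (hmult0 w)).le
    have h4 : (n : ℝ) * w.mult * (Real.log (⨆ j, w (cz x j)) - t +
        τ w * (d * t) / (n * w.mult) - (2 * Real.log C1 + C2)) =
        τ w * (d * t) + n * ((w.mult : ℝ) * (Real.log (⨆ j, w (cz x j)) - t)) -
          n * (w.mult * (2 * Real.log C1 + C2)) := by
      have h1 := (hmult0 w).ne'
      have h2 := hnr.ne'
      field_simp
      ring
    rw [h4] at h3
    have h5 : (n : ℝ) * (w.mult * (2 * Real.log C1 + C2)) ≤ n * (2 * (2 * Real.log C1 + C2)) :=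
      mul_le_mul_of_nonneg_left (mul_le_mul_of_nonneg_right (hmult2 w) (by positivity)) hnr.le
    have h6 : 0 ≤ ∑ i, Real.log (Nv (P i)) + (n : ℝ) * ∑ v ∈ V, Real.log (Nv v) +
      (2 * Real.log C1 + C2) := by positivity
    rw [hCC]
    linarith
  · have h1 := hlocv K n hn v (η v) (fun y j => hη v hv y j) (a v) (m v) x hx0
      (fun j => ha v j) (fun j => hφ2 v hv j)
    have h2 := mul_le_mul_of_nonneg_left h1 hnr.le
    rw [mul_add] at h2
    have h3 := hm2 v
    have h4 : (n : ℝ) * Real.log (Nv v) ≤ n * ∑ v ∈ V, Real.log (Nv v) :=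
      mul_le_mul_of_nonneg_left (Finset.single_le_sum (f := fun v => Real.log (Nv v))
        (fun i _ => (log_Nv_pos _).le) hv) hnr.le
    have h5 : 0 ≤ ∑ i, Real.log (Nv (P i)) + (2 * Real.log C1 + C2) +
      n * (2 * (2 * Real.log C1 + C2)) := by positivity
    rw [hCC]
    linarith

end Q273.PD
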